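import Pool.Agent.MP_ac53c1_co.Count
import Pool.Agent.Mg.F942673a.Ga2e8c0

namespace Pool.Agent.Results.MP_ac53c1_co.DobbertinOdd

open Ac53c1

theorem tri_eq_cnt {n : ℕ} (H : V n → V n) (a b : V n) :
    Pool.Agent.MP_942673_co.tri H a b = cnt H a b := by
  refine Finset.card_bij (fun t _ => (t.1, t.2.1)) ?_ ?_ ?_
  · rintro ⟨x, y, z⟩ h
    simp only [Finset.mem_filter, Finset.mem_univ, true_and] at h ⊢
    rw [shift_V.1 h.1, h.2]
  · rintro ⟨x, y, z⟩ h ⟨x', y', z'⟩ h' he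
    simp only [Finset.mem_filter, Finset.mem_univ, true_and, Prod.mk.injEq] at h h' he ⊢
    obtain ⟨rfl, rfl⟩ := he
    exact ⟨rfl, rfl, add_left_cancel (h.1.trans h'.1.symm)⟩
  · rintro ⟨x, y⟩ h
    simp only [Finset.mem_filter, Finset.mem_univ, true_and] at h
    refine ⟨(x, y, x + y + a), ?_, rfl⟩
    simp only [Finset.mem_filter, Finset.mem_univ, true_and]
    exact ⟨shift_V.1 rfl, h⟩

/-- For `n = 5 k`, `k ≥ 2`, an APN function CCZ-equivalent to the Dobbertin power map has only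
odd exclude multiplicities. -/
theorem result (k n : ℕ) (hk : 2 ≤ k) (hn : n = 5 * k) (K : Type) [Field K] (e : K ≃+ V n)
    (F : V n → V n) (hF : IsAPN F)
    (hGF : CCZ (fun x => e (e.symm x ^ (2 ^ (4 * k) + 2 ^ (3 * k) + 2 ^ (2 * k) + 2 ^ k - 1))) F)
    (p : V n × V n) (hp : p ∉ graph F) : Odd (mult (graph F) p) := by
  subst hn
  have h4 := (Pool.Agent.MP_942673_co.dob_congr hk e (fun _ => rfl)).1
  obtain ⟨A, hA⟩ := hGF
  have key : ∀ q r, (4 : ℤ) ∣ ord (graph F) q + ord (graph F) r := by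
    intro q r
    obtain ⟨⟨a, b⟩, rfl⟩ := A.surjective q
    obtain ⟨⟨a', b'⟩, rfl⟩ := A.surjective r
    rw [← hA, ord_image, ord_image, ord_graph, ord_graph, ← tri_eq_cnt, ← tri_eq_cnt]
    exact h4 (a, b) (a', b')
  have k1 := key p (0, F 0)
  rw [ord_eq_six _ _ hp, ord_graph] at k1
  have k3 := cnt_apn F hF 0
  have k4 : 2 ^ (5 * k) = 4 * 2 ^ (5 * k - 2) := by
    rw [show 5 * k = 5 * k - 2 + 2 by omega, pow_add, Nat.add_sub_cancel]; ring
  rw [k4] at k3
  rw [Nat.odd_iff]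
  push_cast at k1
  omega

end Pool.Agent.Results.MP_ac53c1_co.DobbertinOdd
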