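import Pool.Agent.MP_ac53c1_co.Invol

namespace Pool.Agent.Results.MP_ac53c1_co.InvolOdd

open Ac53c1

/-- Let `F` be APN in dimension `2 m`, with `F (A x) = B (F x) + C x` for an affine involution `A`,
an affine map `C` and a linear map `B` with at most `2 ^ m` fixed vectors.  Every point off the graph
that is fixed by `(x, y) ↦ (A x, B y + C x)` has an odd exclude multiplicity. -/
theorem result (m : ℕ) (hm : 2 ≤ m) (F : V (2 * m) → V (2 * m)) (hF : IsAPN F)
    (A C : V (2 * m) →ᵃ[ZMod 2] V (2 * m)) (B : V (2 * m) →ₗ[ZMod 2] V (2 * m))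
    (hA : ∀ x, A (A x) = x) (hE : ∀ x, F (A x) = B (F x) + C x)
    (hB : (Finset.univ.filter fun y => B y = y).card ≤ 2 ^ m) (a b : V (2 * m))
    (hp : (a, b) ∉ graph F) (ha : A a = a) (hb : B b + C a = b) :
    Odd (mult (graph F) (a, b)) :=
  main_invol hm F hF A C B hA hE hB a b hp ha hb

end Pool.Agent.Results.MP_ac53c1_co.InvolOdd
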