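import Pool.Agent.MP_ac53c1_co.Count

namespace Pool.Agent.Results.MP_ac53c1_co.PlateauedOdd

open Ac53c1

/-- For even `n ≥ 4`, an APN function CCZ-equivalent to a plateaued function has only odd
exclude multiplicities. -/
theorem result (n : ℕ) (hn : Even n) (h4 : 4 ≤ n) (F G : V n → V n) (hF : IsAPN F)
    (hG : IsPlateaued G) (hGF : CCZ G F) (p : V n × V n) (hp : p ∉ graph F) :
    Odd (mult (graph F) p) :=
  main hn h4 F G hF hG hGF p hp

end Pool.Agent.Results.MP_ac53c1_co.PlateauedOdd
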