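import Pool.Agent.MP_ac53c1_co.Switch

namespace Pool.Agent.Results.MP_ac53c1_co.SwitchOdd

open Ac53c1

/-- An APN function CCZ-equivalent to `Q + f s`, where for each `a ≠ 0` the number of `b` with
`D_a D_b Q (x) ∈ {0, s}` does not depend on `x` (for example `Q` quadratic), has only odd exclude
multiplicities. -/
theorem result (n : ℕ) (hn : 3 ≤ n) (Q F : V n → V n) (s : V n) (hs : s ≠ 0)
    (f : V n → ZMod 2) (hQ : UniformMod Q s) (hF : IsAPN F)
    (hQF : CCZ (fun x => Q x + f x • s) F) (p : V n × V n) (hp : p ∉ graph F) :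
    Odd (mult (graph F) p) :=
  main_switch hn Q F s hs f hQ hF hQF p hp

end Pool.Agent.Results.MP_ac53c1_co.SwitchOdd
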